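import Mathlib
import Pool.Agent.N100.EL.Main

/-!
# Infinitely many elementary components of Hilbert schemes of points of affine 3-space

Over every algebraically closed field (of any characteristic) there are infinitely many elementary
components of the Hilbert schemes `Hilb_r(𝔸³)`; more precisely for every `R` there are an `r` with
`R < r ≤ 24 (3 R + 1) ^ 3` and an elementary component of `Hilb_r(𝔸³)`.

The Hilbert scheme of `r` points of affine space is any scheme `𝓗.H` over `k` which represents the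
Hilbert functor (`HilbertScheme`, `HilbFamily`, `PointsOver` and `HilbertScheme.idealOf` are
defined in `Pool.Agent.Helper226.LociDefs`).
-/

set_option autoImplicit false

open AlgebraicGeometry CategoryTheory

universe u

namespace Pool.Agent.Results.MP_5ec99c_ag.ElementaryComponents

open Pool.Agent.Helper226 Pool.Agent.Helper413.Gal

/-- `C` is an elementary component of the Hilbert scheme `𝓗.H` of `r` points of affine `n`-space:
it is an irreducible component, and the subscheme corresponding to a general point of `C` is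
supported at a single point, that is, there is an open subset `V` of the Hilbert scheme meeting `C`
such that for every `k`-point `f` of the Hilbert scheme lying in `V ∩ C` the radical of the ideal
of the corresponding subscheme is a maximal ideal. -/
def IsElementaryComponent {k : Type u} [Field k] {n r : ℕ}
    (𝓗 : HilbertScheme k (MvPolynomial (Fin n) k) r) (C : Set 𝓗.H) : Prop :=
  C ∈ irreducibleComponents 𝓗.H ∧
  ∃ V : Set 𝓗.H, IsOpen V ∧ (V ∩ C).Nonempty ∧
    ∀ f : PointsOver k 𝓗.H 𝓗.s k, Set.range f.1 ⊆ V ∩ C → (𝓗.idealOf f).radical.IsMaximal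

lemma transport {k : Type u} [Field k] {n r : ℕ}
    (𝓗₁ 𝓗₂ : HilbertScheme k (MvPolynomial (Fin n) k) r) (C : Set 𝓗₂.H)
    (hC : IsElementaryComponent 𝓗₂ C) : IsElementaryComponent 𝓗₁ (tmor 𝓗₁ 𝓗₂ ⁻¹' C) := by
  have hsurj : Function.Surjective (tmor 𝓗₁ 𝓗₂) := (tmor 𝓗₁ 𝓗₂).surjective
  obtain ⟨hC1, V, hV, hVC, hf⟩ := hC
  refine ⟨preimage_mem_irreducibleComponents hC1 (tmor 𝓗₁ 𝓗₂).isOpenEmbedding ?_,
    tmor 𝓗₁ 𝓗₂ ⁻¹' V, hV.preimage (tmor 𝓗₁ 𝓗₂).continuous, ?_, ?_⟩
  · obtain ⟨z, hz⟩ := hC1.1.1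
    exact ⟨z, hz, hsurj z⟩
  · obtain ⟨z, hzV, hzC⟩ := hVC
    obtain ⟨y, rfl⟩ := hsurj z
    exact ⟨y, hzV, hzC⟩
  · intro f hfr
    have h1 : 𝓗₂.idealOf (tr 𝓗₁ 𝓗₂ k f) = 𝓗₁.idealOf f := by
      unfold HilbertScheme.idealOf
      rw [Φ_tr]
    rw [← h1]
    apply hf
    rw [tr_val]
    rintro _ ⟨y, rfl⟩
    exact hfr ⟨y, rfl⟩

/-- **There are infinitely many elementary components of the Hilbert schemes of points of affine
3-space.** For every algebraically closed field `k` the Hilbert schemes `𝓗 r` of `r` points of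
affine `3`-space exist, and, whatever the choice of the representing schemes, the set of the pairs
`(r, C)` with `C` an elementary component of `𝓗 r` is infinite. More precisely, for every `R` there
are an `r` with `R < r ≤ 24 (3 R + 1) ^ 3` and an elementary component of `𝓗 r`. -/
theorem result (k : Type u) [Field k] [IsAlgClosed k] :
    (∀ r : ℕ, Nonempty (HilbertScheme k (MvPolynomial (Fin 3) k) r)) ∧
    ∀ 𝓗 : (∀ r : ℕ, HilbertScheme k (MvPolynomial (Fin 3) k) r),
      {p : Σ r : ℕ, Set (𝓗 r).H | 1 ≤ p.1 ∧ IsElementaryComponent (𝓗 p.1) p.2}.Infinite ∧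
      ∀ R : ℕ, ∃ r : ℕ, R < r ∧ r ≤ 24 * (3 * R + 1) ^ 3 ∧
        ∃ C : Set (𝓗 r).H, IsElementaryComponent (𝓗 r) C := by
  refine ⟨fun r => ⟨hilb k _ r⟩, fun 𝓗 => ?_⟩
  have key : ∀ R : ℕ, ∃ r : ℕ, R < r ∧ r ≤ 24 * (3 * R + 1) ^ 3 ∧
      ∃ C : Set (𝓗 r).H, IsElementaryComponent (𝓗 r) C := by
    intro R
    obtain ⟨r, h1, h2, C, hC, hV⟩ := Pool.Agent.N100.EL.main k R
    exact ⟨r, h1, h2, _, transport (𝓗 r) (hilb k _ r) C ⟨hC, hV⟩⟩
  refine ⟨?_, key⟩
  intro hfin
  obtain ⟨N, hN⟩ := (hfin.image fun p => p.1).bddAbove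
  obtain ⟨r, h1, -, C, hC⟩ := key N
  have h2 : r ≤ N := hN ⟨⟨r, C⟩, ⟨Nat.one_le_of_lt h1, hC⟩, rfl⟩
  omega

end Pool.Agent.Results.MP_5ec99c_ag.ElementaryComponents
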